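import Mathlib

/-!
# CN matrices of pure braid projections: a symmetric, even, T0 matrix which is not realizable

A braid projection is the list of its crossings from top to bottom; a crossing at `p` exchanges the
strands at the positions `p` and `p + 1` (positions are counted from `0`).

Idea.  A non-crossing pair of strands keeps its order.  Take strands `a₀, a₁, a₂` (numbers `0, 1, 2`),
`u₀, v₀, u₁, v₁, u₂, v₂` (numbers `3, ..., 8`) and `b₀, b₁, b₂` (numbers `9, 10, 11`) such that `aᵢ`
is always to the left of `bⱼ` (`i ≠ j`), of `uₖ` (`i ≠ k`) and of `vᵢ`, and `bᵢ` is always to the right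
of `vₖ` (`i ≠ k`) and of `uᵢ`.  As `aᵢ` and `bᵢ` cross, there is a moment `Tᵢ` at which `bᵢ` is to the
left of `aᵢ`; at this moment `uᵢ < bᵢ < aᵢ < vᵢ` and `vₖ < bᵢ < aᵢ < uₖ` for `k ≠ i`.  Let `m` be the
index for which `Tₘ` is between the two other moments.  Then `uₘ` and `vₘ` have the orders
`uv, vu, uv, vu, uv` at the start, at the three moments and at the end, so they cross four times.
-/

set_option autoImplicit false

namespace Pool.Agent.Results.MP_550572_gt.TwelveStrands

/-- An `n`-braid projection: the list of its crossings, from top to bottom.  The crossing `p`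
exchanges the strands at the positions `p` and `p + 1` (positions are counted from `0`). -/
abbrev Projection (n : ℕ) := List {p : ℕ // p + 1 < n}

/-- the left position of a crossing -/
def lft {n : ℕ} (p : {p : ℕ // p + 1 < n}) : Fin n := ⟨p.1, by omega⟩

/-- the right position of a crossing -/
def rgt {n : ℕ} (p : {p : ℕ // p + 1 < n}) : Fin n := ⟨p.1 + 1, p.2⟩

/-- `run s B q` is the strand which is at the position `q` below `B`, if `s q` is the strand at the
position `q` above `B` (for all positions `q`). -/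
def run {n : ℕ} (s : Equiv.Perm (Fin n)) : Projection n → Equiv.Perm (Fin n)
  | [] => s
  | p :: B => run (s * Equiv.swap (lft p) (rgt p)) B

/-- the number of crossings of the strand `i` with the strand `j` in `B`, if `s q` is the strand at
the position `q` above `B` -/
def crossings {n : ℕ} (i j : Fin n) (s : Equiv.Perm (Fin n)) : Projection n → ℕ
  | [] => 0
  | p :: B => (if (s (lft p) = i ∧ s (rgt p) = j) ∨ (s (lft p) = j ∧ s (rgt p) = i) then 1 else 0) +
      crossings i j (s * Equiv.swap (lft p) (rgt p)) B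

/-- the CN matrix of a braid projection: its `(i, j)` entry is the number of crossings of the strands
`i` and `j`, which are numbered by their positions at the top -/
def CN {n : ℕ} (B : Projection n) : Matrix (Fin n) (Fin n) ℕ := fun i j => crossings i j 1 B

/-- the projection is pure: every strand ends at the position at which it started -/
def IsPure {n : ℕ} (B : Projection n) : Prop := run 1 B = 1

/-- the matrix is T0: the diagonal is zero, and `M i j = 0`, `M j k = 0` imply `M i k = 0` for
`i < j < k` -/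
def IsT0 {n : ℕ} (M : Matrix (Fin n) (Fin n) ℕ) : Prop :=
  (∀ i, M i i = 0) ∧ ∀ i j k, i < j → j < k → M i j = 0 → M j k = 0 → M i k = 0

/-- the state after `t` crossings -/
def st {n : ℕ} (B : Projection n) (t : ℕ) : Equiv.Perm (Fin n) := run 1 (B.take t)

/-- the strand `i` is to the left of the strand `j` after `t` crossings -/
def O {n : ℕ} (B : Projection n) (t : ℕ) (i j : Fin n) : Prop :=
  (st B t).symm i < (st B t).symm j

/-- number of crossings among the first `t` -/
def C {n : ℕ} (B : Projection n) (t : ℕ) (i j : Fin n) : ℕ := crossings i j 1 (B.take t)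

theorem run_append {n : ℕ} (A B : Projection n) (s : Equiv.Perm (Fin n)) :
    run s (A ++ B) = run (run s A) B := by
  induction A generalizing s with
  | nil => rfl
  | cons p A ih => simp only [List.cons_append, run]; exact ih _

theorem crossings_append {n : ℕ} (i j : Fin n) (A B : Projection n) (s : Equiv.Perm (Fin n)) :
    crossings i j s (A ++ B) = crossings i j s A + crossings i j (run s A) B := by
  induction A generalizing s with
  | nil => simp [crossings, run]
  | cons p A ih =>
    simp only [List.cons_append, run, crossings]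
    rw [ih]
    omega

theorem swap_lt {n : ℕ} (p : {p : ℕ // p + 1 < n}) (x y : Fin n) (hxy : x ≠ y) :
    ((x = lft p ∧ y = rgt p) ∨ (x = rgt p ∧ y = lft p)) ∧
      (Equiv.swap (lft p) (rgt p) x < Equiv.swap (lft p) (rgt p) y ↔ ¬ x < y) ∨
    (¬ ((x = lft p ∧ y = rgt p) ∨ (x = rgt p ∧ y = lft p))) ∧
      (Equiv.swap (lft p) (rgt p) x < Equiv.swap (lft p) (rgt p) y ↔ x < y) := by
  obtain ⟨p, hp⟩ := p
  obtain ⟨x, hx⟩ := x
  obtain ⟨y, hy⟩ := y
  have hxy' : x ≠ y := fun h => hxy (by subst h; rfl)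
  have hp1 : ¬ (p + 1 = p) := by omega
  simp only [lft, rgt, Equiv.swap_apply_def, Fin.mk.injEq]
  by_cases h1 : x = p <;> by_cases h2 : x = p + 1 <;> by_cases h3 : y = p <;>
    by_cases h4 : y = p + 1 <;>
    simp only [h1, h2, h3, h4, hp1, if_true, if_false, Fin.mk_lt_mk, true_and, and_true, false_and,
      and_false, or_false, false_or, or_true, not_true, not_false_iff] <;> omega

theorem step {n : ℕ} (B : Projection n) (t : ℕ) (i j : Fin n) (hij : i ≠ j) :
    (C B (t + 1) i j = C B t i j ∧ (O B (t + 1) i j ↔ O B t i j)) ∨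
    (C B (t + 1) i j = C B t i j + 1 ∧ (O B (t + 1) i j ↔ ¬ O B t i j)) := by
  by_cases ht : t < B.length
  · have h1 : B.take (t + 1) = B.take t ++ [B[t]] := (List.take_append_getElem ht).symm
    have h2 : st B (t + 1) = st B t * Equiv.swap (lft B[t]) (rgt B[t]) := by
      unfold st
      rw [h1, run_append]
      rfl
    have h3 : C B (t + 1) i j = C B t i j +
        (if (st B t (lft B[t]) = i ∧ st B t (rgt B[t]) = j) ∨
          (st B t (lft B[t]) = j ∧ st B t (rgt B[t]) = i) then 1 else 0) := by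
      unfold C
      rw [h1, crossings_append]
      simp only [crossings, add_zero]
      rfl
    have h4 : ∀ x, (st B (t + 1)).symm x =
        Equiv.swap (lft B[t]) (rgt B[t]) ((st B t).symm x) := by
      intro x
      rw [h2, Equiv.symm_apply_eq]
      simp [Equiv.Perm.mul_apply]
    have hne : (st B t).symm i ≠ (st B t).symm j := fun h => hij ((st B t).symm.injective h)
    have key := swap_lt B[t] ((st B t).symm i) ((st B t).symm j) hne
    unfold O
    rw [h4, h4, h3]
    have e1 : ((st B t (lft B[t]) = i ∧ st B t (rgt B[t]) = j) ∨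
          (st B t (lft B[t]) = j ∧ st B t (rgt B[t]) = i)) ↔
        (((st B t).symm i = lft B[t] ∧ (st B t).symm j = rgt B[t]) ∨
          ((st B t).symm i = rgt B[t] ∧ (st B t).symm j = lft B[t])) := by
      constructor
      · rintro (⟨h, h'⟩ | ⟨h, h'⟩)
        · left
          rw [← h, ← h']
          simp
        · right
          rw [← h, ← h']
          simp
      · rintro (⟨h, h'⟩ | ⟨h, h'⟩)
        · left
          rw [← h, ← h']
          simp
        · right
          rw [← h, ← h']
          simp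
    rcases key with ⟨k1, k2⟩ | ⟨k1, k2⟩
    · right
      rw [if_pos (e1.2 k1)]
      exact ⟨rfl, k2⟩
    · left
      rw [if_neg (fun h => k1 (e1.1 h))]
      exact ⟨rfl, k2⟩
  · left
    have h1 : B.take (t + 1) = B.take t := by
      rw [List.take_of_length_le (by omega), List.take_of_length_le (by omega)]
    unfold C O st
    rw [h1]
    exact ⟨rfl, Iff.rfl⟩

theorem mono {n : ℕ} (B : Projection n) (i j : Fin n) (hij : i ≠ j) (t d : ℕ) :
    C B t i j ≤ C B (t + d) i j ∧
      (¬ (O B (t + d) i j ↔ O B t i j) → C B t i j + 1 ≤ C B (t + d) i j) := by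
  induction d with
  | zero => simp
  | succ d ih =>
    obtain ⟨h1, h2⟩ := ih
    rw [← add_assoc]
    rcases step B (t + d) i j hij with ⟨s1, s2⟩ | ⟨s1, s2⟩
    · rw [s1, s2]
      exact ⟨h1, h2⟩
    · rw [s1]
      exact ⟨by omega, fun _ => by omega⟩

theorem mono' {n : ℕ} (B : Projection n) (i j : Fin n) (hij : i ≠ j) {t t' : ℕ} (h : t ≤ t') :
    C B t i j ≤ C B t' i j := by
  obtain ⟨d, rfl⟩ := Nat.exists_eq_add_of_le h
  exact (mono B i j hij t d).1

theorem change {n : ℕ} (B : Projection n) (i j : Fin n) (hij : i ≠ j) {t t' : ℕ} (h : t ≤ t')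
    (hc : ¬ (O B t' i j ↔ O B t i j)) : C B t i j + 1 ≤ C B t' i j := by
  obtain ⟨d, rfl⟩ := Nat.exists_eq_add_of_le h
  exact (mono B i j hij t d).2 hc

theorem C_le {n : ℕ} (B : Projection n) (i j : Fin n) (hij : i ≠ j) (t : ℕ) :
    C B t i j ≤ CN B i j := by
  have h : CN B i j = C B (t + B.length) i j := by
    unfold CN C
    rw [List.take_of_length_le (by omega)]
  rw [h]
  exact mono' B i j hij (by omega)

theorem O_zero {n : ℕ} (B : Projection n) (i j : Fin n) : O B 0 i j ↔ i < j := Iff.rfl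

/-- strands which do not cross keep their order -/
theorem keep {n : ℕ} (B : Projection n) (i j : Fin n) (hij : i < j) (h0 : CN B i j = 0) (t : ℕ) :
    O B t i j := by
  by_contra hcon
  have h1 := change B i j hij.ne (Nat.zero_le t) (fun h => hcon (h.2 ((O_zero B i j).2 hij)))
  have h2 := C_le B i j hij.ne t
  omega

/-- strands which cross are in the reverse order at some moment -/
theorem reversed {n : ℕ} (B : Projection n) (i j : Fin n) (hij : i < j) (h0 : CN B i j ≠ 0) :
    ∃ t, O B t j i := by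
  by_contra hcon
  push Not at hcon
  have hO : ∀ t, O B t i j := by
    intro t
    have h := hcon t
    unfold O at h ⊢
    rcases lt_trichotomy ((st B t).symm i) ((st B t).symm j) with h' | h' | h'
    · exact h'
    · exact absurd ((st B t).symm.injective h') hij.ne
    · exact absurd h' h
  have hC : ∀ t, C B t i j = 0 := by
    intro t
    induction t with
    | zero => simp [C, crossings]
    | succ t ih =>
      rcases step B t i j hij.ne with ⟨s1, _⟩ | ⟨_, s2⟩
      · rw [s1, ih]
      · exact absurd (hO t) (s2.1 (hO (t + 1)))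
  apply h0
  have := hC B.length
  unfold C at this
  rw [List.take_of_length_le le_rfl] at this
  exact this

theorem O_trans {n : ℕ} {B : Projection n} {t : ℕ} {i j k : Fin n} (h : O B t i j)
    (h' : O B t j k) : O B t i k := lt_trans h h'

theorem O_asymm {n : ℕ} {B : Projection n} {t : ℕ} {i j : Fin n} (h : O B t i j) :
    ¬ O B t j i := lt_asymm h

/-- the combinatorial core, for four strands and three moments -/
theorem four {n : ℕ} (B : Projection n) (hB : IsPure B) (u v : Fin n) (huv : u < v)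
    (t₁ t₂ t₃ : ℕ) (h12 : t₁ ≤ t₂) (h23 : t₂ ≤ t₃) (h1 : O B t₁ v u) (h2 : O B t₂ u v)
    (h3 : O B t₃ v u) : 4 ≤ CN B u v := by
  have e0 : O B 0 u v := (O_zero B u v).2 huv
  have a1 := change B u v huv.ne (Nat.zero_le t₁) (fun h => O_asymm h1 (h.2 e0))
  have a2 := change B u v huv.ne h12 (fun h => O_asymm h1 (h.1 h2))
  have a3 := change B u v huv.ne h23 (fun h => O_asymm h3 (h.2 h2))
  have e4 : O B (t₃ + B.length) u v := by
    unfold O st
    rw [List.take_of_length_le (by omega)]
    rw [show run 1 B = 1 from hB]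
    exact huv
  have a4 := change B u v huv.ne (Nat.le_add_right t₃ B.length) (fun h => O_asymm h3 (h.1 e4))
  have a5 := C_le B u v huv.ne (t₃ + B.length)
  omega

/-- the pairs of strands which do not cross -/
def zeros : List (ℕ × ℕ) :=
  [(0, 10), (0, 11), (1, 9), (1, 11), (2, 9), (2, 10), (0, 5), (0, 7), (1, 3), (1, 7), (2, 3),
    (2, 5), (0, 4), (1, 6), (2, 8), (3, 9), (5, 10), (7, 11), (4, 10), (4, 11), (6, 9), (6, 11),
    (8, 9), (8, 10)]

/-- the entries of the matrix -/
def entry (i j : ℕ) : ℕ :=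
  if i = j ∨ (i, j) ∈ zeros ∨ (j, i) ∈ zeros ∨ 12 ≤ i ∨ 12 ≤ j then 0 else 2

/-- the matrix -/
def mat (n : ℕ) : Matrix (Fin n) (Fin n) ℕ := fun i j => entry i j

theorem entry_t0_fin : ∀ i j k : Fin 12, i.1 < j.1 → j.1 < k.1 → entry i.1 j.1 = 0 →
    entry j.1 k.1 = 0 → entry i.1 k.1 = 0 := by
  unfold entry
  decide +kernel

theorem entry_t0 (i : ℕ) (hi : i < 12) (j : ℕ) (hj : j < 12) (k : ℕ) (hk : k < 12) (hij : i < j)
    (hjk : j < k) (h1 : entry i j = 0) (h2 : entry j k = 0) : entry i k = 0 :=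
  entry_t0_fin ⟨i, hi⟩ ⟨j, hj⟩ ⟨k, hk⟩ hij hjk h1 h2

theorem mat_t0 (n : ℕ) : IsT0 (mat n) := by
  constructor
  · intro i
    simp [mat, entry]
  · intro i j k hij hjk h1 h2
    have hij' : i.1 < j.1 := hij
    have hjk' : j.1 < k.1 := hjk
    by_cases hk : k.1 < 12
    · exact entry_t0 i.1 (by omega) j.1 (by omega) k.1 hk hij hjk h1 h2
    · simp only [mat, entry]
      rw [if_pos]
      omega

/-- the contradiction: `i`, `m`, `j` are the three indices in the order of the three moments -/
theorem contra {n : ℕ} (B : Projection n) (hB : IsPure B) (ai bi am bm aj bj u v : Fin n)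
    (huv : u < v) (hle : CN B u v < 4)
    (ti tm tj : ℕ) (him : ti ≤ tm) (hmj : tm ≤ tj)
    (ei : O B ti bi ai) (em : O B tm bm am) (ej : O B tj bj aj)
    (h1 : ∀ t, O B t v bi) (h2 : ∀ t, O B t ai u)
    (h3 : ∀ t, O B t u bm) (h4 : ∀ t, O B t am v)
    (h5 : ∀ t, O B t v bj) (h6 : ∀ t, O B t aj u) : False := by
  have k1 : O B ti v u := O_trans (O_trans (h1 ti) ei) (h2 ti)
  have k2 : O B tm u v := O_trans (O_trans (h3 tm) em) (h4 tm)
  have k3 : O B tj v u := O_trans (O_trans (h5 tj) ej) (h6 tj)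
  have := four B hB u v huv ti tm tj him hmj k1 k2 k3
  omega

/-- the three moments can be sorted -/
theorem sort3 (T : Fin 3 → ℕ) : ∃ i m j : Fin 3, i ≠ m ∧ m ≠ j ∧ i ≠ j ∧ T i ≤ T m ∧ T m ≤ T j := by
  rcases le_total (T 0) (T 1) with h | h <;> rcases le_total (T 1) (T 2) with h' | h' <;>
    rcases le_total (T 0) (T 2) with h'' | h''
  · exact ⟨0, 1, 2, by decide, by decide, by decide, h, h'⟩
  · exact ⟨0, 1, 2, by decide, by decide, by decide, h, h'⟩
  · exact ⟨0, 2, 1, by decide, by decide, by decide, h'', h'⟩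
  · exact ⟨2, 0, 1, by decide, by decide, by decide, h'', h⟩
  · exact ⟨1, 0, 2, by decide, by decide, by decide, h, h''⟩
  · exact ⟨1, 2, 0, by decide, by decide, by decide, h', h''⟩
  · exact ⟨2, 1, 0, by decide, by decide, by decide, h', h⟩
  · exact ⟨2, 1, 0, by decide, by decide, by decide, h', h⟩

theorem entry_facts : ∀ i < 3, ∀ k < 3,
    (i ≠ k → entry (4 + 2 * k) (9 + i) = 0 ∧ entry i (3 + 2 * k) = 0) ∧
    entry (3 + 2 * k) (9 + k) = 0 ∧ entry k (4 + 2 * k) = 0 ∧ entry k (9 + k) = 2 ∧
    entry (3 + 2 * k) (4 + 2 * k) = 2 := by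
  decide +kernel

theorem not_realizable (n : ℕ) (hn : 12 ≤ n) (B : Projection n) (hB : IsPure B) : CN B ≠ mat n := by
  intro hM
  have hE : ∀ (x y : ℕ) (hx : x < n) (hy : y < n), CN B ⟨x, hx⟩ ⟨y, hy⟩ = entry x y := by
    intro x y hx hy
    rw [hM]
    rfl
  have hT : ∀ i : Fin 3, ∃ t, O B t ⟨9 + i.1, by omega⟩ ⟨i.1, by omega⟩ := by
    intro i
    refine reversed B _ _ (by show i.1 < 9 + i.1; omega) ?_
    rw [hE, (entry_facts i.1 i.2 i.1 i.2).2.2.2.1]
    norm_num
  choose T hT using hT
  obtain ⟨i, m, j, him, hmj, hij, h1, h2⟩ := sort3 T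
  have him' : i.1 ≠ m.1 := fun h => him (Fin.ext h)
  have hjm' : j.1 ≠ m.1 := fun h => hmj (Fin.ext h.symm)
  refine contra B hB ⟨i.1, by omega⟩ ⟨9 + i.1, by omega⟩ ⟨m.1, by omega⟩ ⟨9 + m.1, by omega⟩
    ⟨j.1, by omega⟩ ⟨9 + j.1, by omega⟩ ⟨3 + 2 * m.1, by omega⟩ ⟨4 + 2 * m.1, by omega⟩
    ?_ ?_ (T i) (T m) (T j) h1 h2 (hT i) (hT m) (hT j) ?_ ?_ ?_ ?_ ?_ ?_
  · show 3 + 2 * m.1 < 4 + 2 * m.1
    omega
  · rw [hE, (entry_facts i.1 i.2 m.1 m.2).2.2.2.2]
    norm_num
  · refine keep B _ _ (by show 4 + 2 * m.1 < 9 + i.1; omega) ?_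
    rw [hE, ((entry_facts i.1 i.2 m.1 m.2).1 him').1]
  · refine keep B _ _ (by show i.1 < 3 + 2 * m.1; omega) ?_
    rw [hE, ((entry_facts i.1 i.2 m.1 m.2).1 him').2]
  · refine keep B _ _ (by show 3 + 2 * m.1 < 9 + m.1; omega) ?_
    rw [hE, (entry_facts m.1 m.2 m.1 m.2).2.1]
  · refine keep B _ _ (by show m.1 < 4 + 2 * m.1; omega) ?_
    rw [hE, (entry_facts m.1 m.2 m.1 m.2).2.2.1]
  · refine keep B _ _ (by show 4 + 2 * m.1 < 9 + j.1; omega) ?_
    rw [hE, ((entry_facts j.1 j.2 m.1 m.2).1 hjm').1]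
  · refine keep B _ _ (by show j.1 < 3 + 2 * m.1; omega) ?_
    rw [hE, ((entry_facts j.1 j.2 m.1 m.2).1 hjm').2]

/-- For every `n ≥ 12` there is a symmetric, even, T0 matrix (its entries are `0` and `2`) which is
not the CN matrix of any pure `n`-braid projection. -/
theorem result (n : ℕ) (hn : 12 ≤ n) :
    ∃ M : Matrix (Fin n) (Fin n) ℕ, M.IsSymm ∧ (∀ i j, Even (M i j)) ∧ IsT0 M ∧
      ∀ B : Projection n, IsPure B → CN B ≠ M := by
  refine ⟨mat n, ?_, ?_, mat_t0 n, fun B hB => not_realizable n hn B hB⟩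
  · ext i j
    simp only [Matrix.transpose_apply, mat, entry]
    congr 1
    apply propext
    constructor <;> (rintro (h | h | h | h | h) <;> simp [h])
  · intro i j
    simp only [mat, entry]
    split_ifs
    · exact ⟨0, rfl⟩
    · exact ⟨1, rfl⟩

end Pool.Agent.Results.MP_550572_gt.TwelveStrands
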